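import Pool.Agent.N139.AS.Stm

/-!
# Project AS: spectral projections of the lamps
-/

set_option autoImplicit false

namespace Pool.Agent.N139.AS

open Finset Matrix

noncomputable section

/-- the element `(s^q - 1) ν` of `SL` -/
def xl (p q : ℕ) (ν : Lam) : NN p := ⟨0, shL^[q] ν + ν⟩

/-- spectral projection of the elements `(s^q - 1) ν`, `ν` in the window `[a, b)`, for the character
given by `β` -/
def GG2 (p q : ℕ) {d : ℕ} (α : NN p → UU d) (a b : ℤ) (β : ℤ → ZMod 2) : Mt d :=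
  ((Nat.card {ν : Lam | InL a b ν} : ℂ)⁻¹) •
    ∑ᶠ ν ∈ {ν : Lam | InL a b ν}, (ZMod.stdAddChar (ν.sum fun k c => c * β k) : ℂ) •
      (α (xl p q ν)).1

/-- extension by zero -/
def ex2 (a b : ℤ) (β : {k : ℤ // a ≤ k ∧ k < b} → ZMod 2) : ℤ → ZMod 2 :=
  open Classical in fun k => if h : a ≤ k ∧ k < b then β ⟨k, h⟩ else 0

/-- SPL: spectral projections of the lamps. -/
def S_SPL : Prop :=
  ∀ (p q : ℕ) [Fact p.Prime] (R d : ℕ) (α : NN p → UU d) (t : UU d), Act (SS p) R α t →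
    ∀ a b : ℤ, -R ≤ a → a ≤ b → b + q ≤ R →
    (∀ β, IsP (GG2 p q α a b β)) ∧
    (∀ β β', (∀ k, a ≤ k → k < b → β k = β' k) → GG2 p q α a b β = GG2 p q α a b β') ∧
    (∀ β β', (∃ k, a ≤ k ∧ k < b ∧ β k ≠ β' k) → GG2 p q α a b β * GG2 p q α a b β' = 0) ∧
    (∀ β ν, InL a b ν → (α (xl p q ν)).1 * GG2 p q α a b β =
      (ZMod.stdAddChar (ν.sum fun k c => c * β k) : ℂ) • GG2 p q α a b β) ∧
    (∀ β, ∀ x ∈ SL p, x ∈ WN p (-R) R → Commute (α x).1 (GG2 p q α a b β)) ∧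
    (∀ β, b + q < R → t.1 * GG2 p q α a b β =
      GG2 p q α (a + 1) (b + 1) (fun k => β (k - 1)) * t.1) ∧
    ∀ _ : Fintype {k : ℤ // a ≤ k ∧ k < b},
      (open Classical in ∑ β : {k : ℤ // a ≤ k ∧ k < b} → ZMod 2, GG2 p q α a b (ex2 a b β)) = 1 ∧
      ∀ (a' b' : ℤ) (β' : ℤ → ZMod 2), a ≤ a' → a' ≤ b' → b' ≤ b → GG2 p q α a' b' β' =
        (open Classical in ∑ β : {k : ℤ // a ≤ k ∧ k < b} → ZMod 2,
          if ∀ k, a' ≤ k → k < b' → ex2 a b β k = β' k then GG2 p q α a b (ex2 a b β) else 0)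

end

end Pool.Agent.N139.AS
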