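import Pool.Agent.N139.AS.Stm2
import Pool.Agent.N139.AS.Stm3

/-!
# Project AS: assembly of the final statement
-/

set_option autoImplicit false

namespace Pool.Agent.N139.AS

open Pool.Agent.H698R3.Amalg (PermutationStable HilbertSchmidtStable AmalgProd fro hsDist)
open Pool.Agent.H698R4 (FlexPermWrt FlexHSWrt)

/-- amalgamated products of finitely generated groups are finitely generated -/
theorem fg_amalg {G₁ G₂ H : Type} [Group G₁] [Group G₂] [Group H] (f₁ : H →* G₁) (f₂ : H →* G₂)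
    (h₁ : Group.FG G₁) (h₂ : Group.FG G₂) : Group.FG (AmalgProd f₁ f₂) := by
  rw [Group.fg_iff] at h₁ h₂ ⊢
  obtain ⟨S₁, hS₁, hf₁⟩ := h₁
  obtain ⟨S₂, hS₂, hf₂⟩ := h₂
  let ι₁ : G₁ →* AmalgProd f₁ f₂ := (QuotientGroup.mk' _).comp Monoid.Coprod.inl
  let ι₂ : G₂ →* AmalgProd f₁ f₂ := (QuotientGroup.mk' _).comp Monoid.Coprod.inr
  refine ⟨ι₁ '' S₁ ∪ ι₂ '' S₂, ?_, (hf₁.image _).union (hf₂.image _)⟩
  rw [eq_top_iff]
  intro g _
  obtain ⟨x, rfl⟩ := QuotientGroup.mk'_surjective _ g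
  induction x using Monoid.Coprod.induction_on with
  | inl a =>
    have ha : a ∈ Subgroup.closure S₁ := by rw [hS₁]; exact Subgroup.mem_top _
    have : ι₁ a ∈ Subgroup.map ι₁ (Subgroup.closure S₁) := Subgroup.mem_map_of_mem _ ha
    rw [MonoidHom.map_closure] at this
    exact Subgroup.closure_mono Set.subset_union_left this
  | inr a =>
    have ha : a ∈ Subgroup.closure S₂ := by rw [hS₂]; exact Subgroup.mem_top _
    have : ι₂ a ∈ Subgroup.map ι₂ (Subgroup.closure S₂) := Subgroup.mem_map_of_mem _ ha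
    rw [MonoidHom.map_closure] at this
    exact Subgroup.closure_mono Set.subset_union_right this
  | mul a b ha hb =>
    rw [map_mul]
    exact Subgroup.mul_mem _ (ha trivial) (hb trivial)

/-- the final statement -/
def S_FINAL : Prop := ∃ (G₁ G₂ : Type) (_ : Group G₁) (_ : Group G₂)
    (f₁ : Multiplicative (ZMod 257) →* G₁) (f₂ : Multiplicative (ZMod 257) →* G₂),
    Group.FG G₁ ∧ Group.FG G₂ ∧ Function.Injective f₁ ∧ Function.Injective f₂ ∧
    PermutationStable G₁ ∧ PermutationStable G₂ ∧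
    HilbertSchmidtStable G₁ ∧ HilbertSchmidtStable G₂ ∧
    Group.FG (AmalgProd f₁ f₂) ∧
    ¬ PermutationStable (AmalgProd f₁ f₂) ∧ ¬ HilbertSchmidtStable (AmalgProd f₁ f₂) ∧
    ∀ (r : ℕ) (s : Fin r → AmalgProd f₁ f₂), Subgroup.closure (Set.range s) = ⊤ →
        ¬ FlexPermWrt s ∧ ¬ FlexHSWrt s

theorem final_of (hG1 : S_G1) (hP : S_PST) (hH : S_HST) (hFG : S_FG) (hE : S_EMB) (hR : S_RF)
    (hX : S_EX) (hNP : S_NOTP) (hNH : S_NOTH) : S_FINAL := by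
  have : Fact (Nat.Prime 257) := ⟨by norm_num⟩
  have h2 : (257 : ℕ) ≠ 2 := by norm_num
  obtain ⟨G₁, iG, fg1, ⟨f₁, hf₁⟩, p1, hs1, tr⟩ := hG1
  obtain ⟨f₂, hf₂, hh2⟩ := hE 257
  have hz : ∀ x : Multiplicative (ZMod 257), x ∈ Subgroup.zpowers (Multiplicative.ofAdd (1 : ZMod 257)) := by
    intro x
    refine ⟨((Multiplicative.toAdd x).val : ℤ), ?_⟩
    show (Multiplicative.ofAdd (1 : ZMod 257)) ^ ((Multiplicative.toAdd x).val : ℤ) = x
    rw [← ofAdd_zsmul]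
    apply Multiplicative.toAdd.injective
    simp
  have hfg2 := hFG 257
  have hr : ∀ (Q : Type) [Group Q] [Finite Q] (ρ : GG (SS 257) →* Q),
      ρ (f₂ (Multiplicative.ofAdd 1)) = 1 → ρ (inn (SS 257) (uu 257)) = 1 := by
    intro Q _ _ ρ h
    rw [hh2] at h
    exact hR 257 h2 Q ρ h
  have hx : ∀ L : ℕ, 2 ≤ L → ∃ (X : Type) (_ : Fintype X) (_ : Nonempty X)
      (ψ : GG (SS 257) →* Equiv.Perm X),
      L * ct (fun x => ψ (f₂ (Multiplicative.ofAdd 1)) x ≠ x) ≤ Fintype.card X ∧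
      L * ct (fun x => ψ (inn (SS 257) (uu 257)) x = x) ≤ Fintype.card X := by
    rw [hh2]
    exact hX 257 h2
  obtain ⟨a1, a2⟩ := hNP G₁ (GG (SS 257)) (Multiplicative (ZMod 257)) f₁ f₂ (Multiplicative.ofAdd 1)
    (inn (SS 257) (uu 257)) fg1 hfg2 hz tr hr hx
  obtain ⟨b1, b2⟩ := hNH G₁ (GG (SS 257)) (Multiplicative (ZMod 257)) f₁ f₂ (Multiplicative.ofAdd 1)
    (inn (SS 257) (uu 257)) fg1 hfg2 hz tr hr hx
  exact ⟨G₁, GG (SS 257), iG, inferInstance, f₁, f₂, fg1, hfg2, hf₁, hf₂, p1, hP 257 h2, hs1,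
    hH 257 h2, fg_amalg f₁ f₂ fg1 hfg2, a1, b1, fun r s hs => ⟨a2 r s hs, b2 r s hs⟩⟩

end Pool.Agent.N139.AS
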