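import Mathlib

/-!
# Project AS: definitions

`WD N`: a group `N` with an automorphism `σ`, windows `W a b` (subgroups for the intervals `[a, b)`) and
folding maps `f q`. `NN p` is the wreath product of `ℤ/p` and `⨁_ℤ ℤ/2`.
-/

set_option autoImplicit false

namespace Pool.Agent.N139.AS

open Finset

/-- shift, windows and folding maps -/
structure WD (N : Type) [Group N] where
  σ : MulAut N
  W : ℤ → ℤ → Subgroup N
  f : ℕ → N →* N

/-- the axioms -/
structure WD.Ok {N : Type} [Group N] (S : WD N) : Prop where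
  mono : ∀ a b a' b' : ℤ, a' ≤ a → b ≤ b' → S.W a b ≤ S.W a' b'
  shift : ∀ (a b : ℤ) (n : N), S.σ n ∈ S.W (a + 1) (b + 1) ↔ n ∈ S.W a b
  fin : ∀ a b : ℤ, Finite (S.W a b)
  exh : ∀ n : N, ∃ r : ℕ, n ∈ S.W (-r) r
  f_mem : ∀ (q : ℕ) (n : N), 0 < q → S.f q n ∈ S.W (-q) 0
  f_id : ∀ (q : ℕ) (n : N), 0 < q → n ∈ S.W (-q) 0 → S.f q n = n
  f_per : ∀ (q : ℕ) (n : N), 0 < q → S.f q ((S.σ ^ q) n) = S.f q n
  f_ker : ∀ (q : ℕ) (n : N), 0 < q → (S.f q (S.σ n) = 1 ↔ S.f q n = 1)

/-- the group `N ⋊ ℤ` -/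
abbrev GG {N : Type} [Group N] (S : WD N) : Type :=
  N ⋊[zpowersHom (MulAut N) S.σ] Multiplicative ℤ

/-- elements of `N` in `GG S` -/
abbrev inn {N : Type} [Group N] (S : WD N) : N →* GG S := SemidirectProduct.inl

/-- the generator of `ℤ` in `GG S` -/
def tt {N : Type} [Group N] (S : WD N) : GG S := SemidirectProduct.inr (Multiplicative.ofAdd 1)

theorem tt_mul {N : Type} [Group N] (S : WD N) (n : N) :
    tt S * inn S n = inn S (S.σ n) * tt S := by
  have h := SemidirectProduct.inl_aut (φ := zpowersHom (MulAut N) S.σ) (Multiplicative.ofAdd 1) n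
  have h2 : (zpowersHom (MulAut N) S.σ) (Multiplicative.ofAdd 1) = S.σ := by simp
  rw [h2] at h
  show SemidirectProduct.inr (Multiplicative.ofAdd 1) * SemidirectProduct.inl n =
    SemidirectProduct.inl (S.σ n) * SemidirectProduct.inr (Multiplicative.ofAdd 1)
  rw [h]
  simp [mul_assoc]

/-- homomorphisms from `GG S` -/
theorem exists_lift {N : Type} [Group N] (S : WD N) {H : Type} [Group H] (α : N →* H) (t : H)
    (h : ∀ n, t * α n = α (S.σ n) * t) :
    ∃ ψ : GG S →* H, ψ (tt S) = t ∧ ∀ n, ψ (inn S n) = α n := by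
  have h2 : ∀ n, t * α n * t⁻¹ = α (S.σ n) := fun n => by rw [h, mul_inv_cancel_right]
  have h3 : ∀ n, t⁻¹ * α n * t = α (S.σ⁻¹ n) := by
    intro n
    have := h (S.σ⁻¹ n)
    rw [MulAut.apply_inv_self] at this
    rw [mul_assoc, ← this]
    group
  have h4 : ∀ (k : ℤ) (n : N), t ^ k * α n * (t ^ k)⁻¹ = α ((S.σ ^ k) n) := by
    intro k
    induction k using Int.induction_on with
    | zero => intro n; simp
    | succ k ih =>
      intro n
      rw [zpow_add_one, zpow_add_one, MulAut.mul_apply, ← ih, ← h2]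
      group
    | pred k ih =>
      intro n
      rw [zpow_sub_one, zpow_sub_one, MulAut.mul_apply, ← ih, ← h3]
      group
  refine ⟨SemidirectProduct.lift α (zpowersHom H t) ?_, ?_, ?_⟩
  · intro g
    ext n
    obtain ⟨k, rfl⟩ := Multiplicative.ofAdd.surjective g
    have h5 := h4 k n
    simp only [zpowersHom_apply, toAdd_ofAdd, MulEquiv.toMonoidHom_eq_coe, MonoidHom.comp_apply,
      MonoidHom.coe_coe, MulAut.conj_apply]
    exact h5.symm
  · simp [tt]
  · intro n
    simp [inn]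

/-- An exact homomorphism of the window `[-R, R)` and an element `t` which acts as the shift. -/
structure Act {N : Type} [Group N] (S : WD N) (R : ℕ) {H : Type} [Group H] (α : N → H) (t : H) :
    Prop where
  mul : ∀ n ∈ S.W (-R) R, ∀ m ∈ S.W (-R) R, α (n * m) = α n * α m
  rel : ∀ n ∈ S.W (-R) (R - 1), t * α n = α (S.σ n) * t

/-! ### the concrete group -/

/-- `⨁_ℤ ℤ/2` -/
abbrev Lam : Type := ℤ →₀ ZMod 2

/-- translation by `l` of functions on `Lam` -/
noncomputable def trl (p : ℕ) (l : Lam) : (Lam →₀ ZMod p) ≃+ (Lam →₀ ZMod p) :=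
  Finsupp.domCongr (Equiv.addLeft l)

theorem trl_apply (p : ℕ) (l : Lam) (a : Lam →₀ ZMod p) (x : Lam) :
    trl p l a x = a (-l + x) := rfl

/-- the wreath product of `ℤ/p` and `Lam` -/
@[ext] structure NN (p : ℕ) : Type where
  a : Lam →₀ ZMod p
  l : Lam

noncomputable instance (p : ℕ) : Mul (NN p) := ⟨fun x y => ⟨x.a + trl p x.l y.a, x.l + y.l⟩⟩
noncomputable instance (p : ℕ) : One (NN p) := ⟨⟨0, 0⟩⟩
noncomputable instance (p : ℕ) : Inv (NN p) := ⟨fun x => ⟨-trl p (-x.l) x.a, -x.l⟩⟩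

theorem NN.mul_a (p : ℕ) (x y : NN p) : (x * y).a = x.a + trl p x.l y.a := rfl
theorem NN.mul_l (p : ℕ) (x y : NN p) : (x * y).l = x.l + y.l := rfl
theorem NN.one_a (p : ℕ) : (1 : NN p).a = 0 := rfl
theorem NN.one_l (p : ℕ) : (1 : NN p).l = 0 := rfl
theorem NN.inv_a (p : ℕ) (x : NN p) : (x⁻¹).a = -trl p (-x.l) x.a := rfl
theorem NN.inv_l (p : ℕ) (x : NN p) : (x⁻¹).l = -x.l := rfl

noncomputable instance (p : ℕ) : Group (NN p) :=
  Group.ofLeftAxioms
    (by
      intro x y z
      ext i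
      · simp only [NN.mul_a, NN.mul_l, map_add, Finsupp.add_apply, trl_apply]
        rw [show -(x.l + y.l) + i = -y.l + (-x.l + i) by abel]
        ring
      · simp only [NN.mul_l, Finsupp.add_apply]
        ring)
    (by
      intro x
      ext i
      · simp only [NN.mul_a, NN.one_a, NN.one_l, Finsupp.add_apply, trl_apply]
        simp
      · simp [NN.mul_l, NN.one_l])
    (by
      intro x
      ext i
      · simp only [NN.mul_a, NN.one_a, NN.inv_a, NN.inv_l, Finsupp.add_apply, Finsupp.neg_apply,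
          trl_apply]
        simp
      · simp [NN.mul_l, NN.one_l, NN.inv_l])

/-- the shift by one on `Lam` -/
noncomputable def shL : Lam ≃+ Lam := Finsupp.domCongr (Equiv.addRight (1 : ℤ))

theorem shL_apply (l : Lam) (i : ℤ) : shL l i = l (i - 1) := rfl

/-- the shift on functions -/
noncomputable def shA (p : ℕ) : (Lam →₀ ZMod p) ≃+ (Lam →₀ ZMod p) :=
  Finsupp.domCongr shL.toEquiv

theorem shA_apply (p : ℕ) (a : Lam →₀ ZMod p) (x : Lam) : shA p a x = a (shL.symm x) := rfl

/-- the shift on the wreath product -/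
noncomputable def shN (p : ℕ) : MulAut (NN p) where
  toFun x := ⟨shA p x.a, shL x.l⟩
  invFun x := ⟨(shA p).symm x.a, shL.symm x.l⟩
  left_inv x := by ext1 <;> simp
  right_inv x := by ext1 <;> simp
  map_mul' x y := by
    ext i
    · simp only [NN.mul_a, map_add, Finsupp.add_apply, trl_apply, shA_apply, map_neg,
        AddEquiv.symm_apply_apply]
    · simp only [NN.mul_l, map_add]

/-- support in `[a, b)` -/
def InL (a b : ℤ) (l : Lam) : Prop := ∀ i, l i ≠ 0 → a ≤ i ∧ i < b

theorem InL.add {a b : ℤ} {l m : Lam} (hl : InL a b l) (hm : InL a b m) : InL a b (l + m) := by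
  intro i hi
  by_cases h : l i = 0
  · refine hm i fun h' => hi ?_
    rw [Finsupp.add_apply, h, h', add_zero]
  · exact hl i h

theorem InL.neg {a b : ℤ} {l : Lam} (hl : InL a b l) : InL a b (-l) := by
  intro i hi
  refine hl i fun h => hi ?_
  rw [Finsupp.neg_apply, h, neg_zero]

theorem InL.zero (a b : ℤ) : InL a b 0 := by
  intro i hi
  exact absurd rfl hi

/-- the windows -/
def WN (p : ℕ) (a b : ℤ) : Subgroup (NN p) where
  carrier := {x | InL a b x.l ∧ ∀ y, x.a y ≠ 0 → InL a b y}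
  mul_mem' := by
    rintro x y ⟨h1, h2⟩ ⟨h3, h4⟩
    refine ⟨h1.add h3, fun z hz => ?_⟩
    by_cases h : x.a z = 0
    · have h5 : y.a (-x.l + z) ≠ 0 := by
        intro h6
        apply hz
        rw [NN.mul_a, Finsupp.add_apply, h, trl_apply, h6, add_zero]
      have h7 := h1.add (h4 _ h5)
      rwa [add_neg_cancel_left] at h7
    · exact h2 z h
  one_mem' := ⟨InL.zero a b, fun y hy => absurd rfl hy⟩
  inv_mem' := by
    rintro x ⟨h1, h2⟩
    refine ⟨h1.neg, fun z hz => ?_⟩
    have h5 : x.a (x.l + z) ≠ 0 := by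
      intro h6
      apply hz
      rw [NN.inv_a, Finsupp.neg_apply, trl_apply, neg_neg, h6, neg_zero]
    have h7 := h1.neg.add (h2 _ h5)
    rwa [neg_add_cancel_left] at h7

/-- folding of indices modulo `q` into `[-q, 0)` -/
def fi (q : ℕ) (i : ℤ) : ℤ := i % q - q

/-- folding on `Lam` -/
noncomputable def fL (q : ℕ) : Lam →+ Lam := Finsupp.mapDomain.addMonoidHom (fi q)

/-- folding on functions -/
noncomputable def fA (p q : ℕ) : (Lam →₀ ZMod p) →+ (Lam →₀ ZMod p) :=
  Finsupp.mapDomain.addMonoidHom (fL q)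

/-- folding on the wreath product -/
noncomputable def fN (p q : ℕ) : NN p →* NN p where
  toFun x := ⟨fA p q x.a, fL q x.l⟩
  map_one' := by ext1 <;> simp [NN.one_a, NN.one_l]
  map_mul' x y := by
    ext1
    · simp only [NN.mul_a, map_add]
      congr 1
      show Finsupp.mapDomain (fL q) (Finsupp.equivMapDomain (Equiv.addLeft x.l) y.a) =
        Finsupp.equivMapDomain (Equiv.addLeft (fL q x.l)) (Finsupp.mapDomain (fL q) y.a)
      rw [Finsupp.equivMapDomain_eq_mapDomain, Finsupp.equivMapDomain_eq_mapDomain,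
        ← Finsupp.mapDomain_comp, ← Finsupp.mapDomain_comp]
      congr 1
      funext z
      simp
    · simp only [NN.mul_l, map_add]

/-- shift, windows and folding for the wreath product -/
noncomputable def SS (p : ℕ) : WD (NN p) where
  σ := shN p
  W := WN p
  f := fN p

/-- the abelian normal subgroup of functions -/
def SA (p : ℕ) : Subgroup (NN p) where
  carrier := {x | x.l = 0}
  mul_mem' := by
    rintro x y (h1 : x.l = 0) (h2 : y.l = 0)
    show (x * y).l = 0
    rw [NN.mul_l, h1, h2, add_zero]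
  one_mem' := rfl
  inv_mem' := by
    rintro x (h1 : x.l = 0)
    show (x⁻¹).l = 0
    rw [NN.inv_l, h1, neg_zero]

/-- the subgroup `Lam` -/
def SL (p : ℕ) : Subgroup (NN p) where
  carrier := {x | x.a = 0}
  mul_mem' := by
    rintro x y (h1 : x.a = 0) (h2 : y.a = 0)
    show (x * y).a = 0
    rw [NN.mul_a, h1, h2, map_zero, add_zero]
  one_mem' := rfl
  inv_mem' := by
    rintro x (h1 : x.a = 0)
    show (x⁻¹).a = 0
    rw [NN.inv_a, h1, map_zero, neg_zero]

/-- the function `δ_y` times `c` -/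
noncomputable def dl (p : ℕ) (y : Lam) (c : ZMod p) : NN p := ⟨Finsupp.single y c, 0⟩

/-- the lamp at `i` -/
noncomputable def lam (i : ℤ) : Lam := Finsupp.single i 1

/-- `(1 - l_0)(1 + l_1)` -/
noncomputable def hh (p : ℕ) : NN p :=
  ⟨Finsupp.single 0 1 - Finsupp.single (lam 0) 1 + Finsupp.single (lam 1) 1 -
    Finsupp.single (lam 0 + lam 1) 1, 0⟩

/-- `(1 + l_0)(1 - l_1)` -/
noncomputable def uu (p : ℕ) : NN p :=
  ⟨Finsupp.single 0 1 + Finsupp.single (lam 0) 1 - Finsupp.single (lam 1) 1 -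
    Finsupp.single (lam 0 + lam 1) 1, 0⟩

end Pool.Agent.N139.AS
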