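import Pool.Agent.N139.AS.Defs
import Pool.Agent.H698R4.FxHs3

/-!
# Project AS: statements of the steps

An amalgam of two stable groups over a finite group which is not flexibly stable (MP_0ea811_al).
-/

set_option autoImplicit false

namespace Pool.Agent.N139.AS

open Finset Matrix
open Pool.Agent.H698R3.Amalg (PermutationStable HilbertSchmidtStable AmalgProd fro hsDist)
open Pool.Agent.H698R4 (FlexPermWrt FlexHSWrt)

noncomputable section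

open Classical in
/-- number of the points with the property `P` -/
def ct {X : Type} [Fintype X] (P : X → Prop) : ℝ := ((univ.filter P).card : ℝ)

/-- matrices -/
abbrev Mt (d : ℕ) : Type := Matrix (Fin d) (Fin d) ℂ

/-- unitary matrices -/
abbrev UU (d : ℕ) : Type := Matrix.unitaryGroup (Fin d) ℂ

/-- orthogonal projections -/
def IsP {d : ℕ} (e : Mt d) : Prop := e.IsHermitian ∧ e * e = e

/-- real part of the trace -/
def rtr {d : ℕ} (e : Mt d) : ℝ := (Matrix.trace e).re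

/-- conjugation by a power of `t` -/
def cj {d : ℕ} (t : UU d) (i : ℤ) (e : Mt d) : Mt d := (t ^ i : UU d).1 * e * (t ^ (-i) : UU d).1

/-- product of the complements of the translates by `0, 1, ..., K` -/
def uB {d : ℕ} (t : UU d) (e : Mt d) (K : ℕ) : Mt d :=
  ((List.range (K + 1)).map fun i : ℕ => 1 - cj t i e).prod

/-- product of the complements of the translates by `-1, ..., -K` -/
def uF {d : ℕ} (t : UU d) (e : Mt d) (K : ℕ) : Mt d :=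
  ((List.range K).map fun i : ℕ => 1 - cj t (-((i : ℤ) + 1)) e).prod

/-- sum of the traces of the parts of the region `q` which leave `q` within `K` steps -/
def exq {d : ℕ} (t : UU d) (q : Mt d) (K : ℕ) : ℝ :=
  ∑ i ∈ Finset.Icc (-(K : ℤ)) K, rtr (q * (1 - cj t i q))

/-- marks `e` and region `q` -/
structure Mk {N : Type} [Group N] (S : WD N) (K : ℕ) {d : ℕ} (α : N → UU d) (t : UU d)
    (e q : Mt d) : Prop where
  pe : IsP e
  pq : IsP q
  ee : ∀ i j : ℤ, |i| ≤ K → |j| ≤ K → Commute (cj t i e) (cj t j e)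
  eq : ∀ i j : ℤ, |i| ≤ K → |j| ≤ K → Commute (cj t i e) (cj t j q)
  qq : ∀ i j : ℤ, |i| ≤ K → |j| ≤ K → Commute (cj t i q) (cj t j q)
  ae : ∀ n ∈ S.W (-K) K, Commute (α n).1 e
  aq : ∀ n ∈ S.W (-K) K, Commute (α n).1 q

/-! ### general part -/

/-- OK: the axioms hold for the concrete group. -/
def S_OK : Prop := ∀ (p : ℕ) [Fact p.Prime], (SS p).Ok

/-- FIN: finite groups are stable. -/
def S_FIN : Prop := ∀ (F : Type) [Group F] [Finite F], PermutationStable F ∧ HilbertSchmidtStable F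

/-- REDP: reduction of permutation stability to exact actions of windows. -/
def S_REDP : Prop :=
  ∀ (N : Type) [Group N] [Countable N] (S : WD N), S.Ok →
    (∀ (m : ℕ) (ε : ℝ), 0 < ε → ∃ R : ℕ, m < R ∧
      ∀ (X : Type) [Fintype X] (α : N → Equiv.Perm X) (t : Equiv.Perm X), Act S R α t →
        ∃ ψ : GG S →* Equiv.Perm X,
          ct (fun x => ψ (tt S) x ≠ t x ∨ ∃ n ∈ S.W (-m) m, ψ (inn S n) x ≠ α n x) ≤
            ε * Fintype.card X) →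
    PermutationStable (GG S)

/-- REDH: reduction of Hilbert-Schmidt stability to exact representations of windows. -/
def S_REDH : Prop :=
  ∀ (N : Type) [Group N] [Countable N] (S : WD N), S.Ok →
    (∀ (m : ℕ) (ε : ℝ), 0 < ε → ∃ R : ℕ, m < R ∧
      ∀ (d : ℕ) (α : N → UU d) (t : UU d), Act S R α t →
        ∃ ψ : GG S →* UU d, fro ((ψ (tt S)).1 - t.1) ≤ ε * d ∧
          ∀ n ∈ S.W (-m) m, fro ((ψ (inn S n)).1 - (α n).1) ≤ ε * d) →
    HilbertSchmidtStable (GG S)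

/-- MARK: random marks. -/
def S_MARK : Prop :=
  ∀ (Y Q : Type) [Fintype Y] [Fintype Q] (μ : Y → ℝ), (∀ y, 0 ≤ μ y) →
    ∀ (K l : ℕ), 0 < l → ∀ c : ℤ → Y → Q, ∃ B : Q → Prop,
      (∑ y, (open Classical in if B (c 0 y) then μ y else 0)) ≤ 2 / l * ∑ y, μ y ∧
      (∑ y, (open Classical in
        if (∀ i j : ℤ, |i| ≤ K → |j| ≤ K → c i y = c j y → i = j) ∧
          ((∀ i : ℕ, i ≤ K → ¬ B (c (-(i : ℤ)) y)) ∨ (∀ i : ℕ, 1 ≤ i → i ≤ K → ¬ B (c i y)))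
        then μ y else 0)) ≤ 4 * (1 - 1 / (l : ℝ)) ^ K * ∑ y, μ y

/-! ### permutations -/

/-- SKYP: skyscrapers over a set of marks. -/
def S_SKYP : Prop :=
  ∀ (N : Type) [Group N] (S : WD N), S.Ok → ∀ (m K R : ℕ), 2 * K < R →
    ∀ (X : Type) [Fintype X] (α : N → Equiv.Perm X) (t : Equiv.Perm X), Act S R α t →
      ∀ B Y : X → Prop,
        (∀ n ∈ S.W (-(2 * K : ℕ)) (2 * K : ℕ), ∀ x, (B x → B (α n x)) ∧ (Y x → Y (α n x))) →
        ∃ ψ : GG S →* Equiv.Perm X, (∀ g x, ¬ Y x → ψ g x = x) ∧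
          ct (fun x => Y x ∧ (ψ (tt S) x ≠ t x ∨ ∃ n ∈ S.W (-m) m, ψ (inn S n) x ≠ α n x)) ≤
            (2 * m + 3) * ct B + ct (fun y => Y y ∧ ∀ i : ℕ, i ≤ K → ¬ B ((t⁻¹ ^ i) y)) +
            ct (fun y => Y y ∧ ∀ i : ℕ, 1 ≤ i → i ≤ K → ¬ B ((t ^ i) y)) +
            ct (fun y => Y y ∧ ∃ i : ℤ, |i| ≤ K ∧ ¬ Y ((t ^ i) y))

/-- FINP: the part where the kernel of the folding map acts trivially. -/
def S_FINP : Prop :=
  ∀ (N : Type) [Group N] (S : WD N), S.Ok → ∀ (q m : ℕ) (ε : ℝ), 0 < q → 0 < ε →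
    ∃ (w0 : ℕ) (η : ℝ), 0 < η ∧ ∀ w ≥ w0, ∀ R ≥ w,
      ∀ (X : Type) [Fintype X] (α : N → Equiv.Perm X) (t : Equiv.Perm X), Act S R α t →
        ∀ Y : X → Prop, (∀ n ∈ S.W (-w) w, ∀ x, Y x → Y (α n x)) →
          (∀ n ∈ S.W (-w) w, S.f q n = 1 → ∀ x, Y x → α n x = x) →
          ct (fun x => Y x ∧ ¬ Y (t x)) ≤ η * Fintype.card X →
          ∃ ψ : GG S →* Equiv.Perm X, (∀ g x, ¬ Y x → ψ g x = x) ∧
            ct (fun x => Y x ∧ (ψ (tt S) x ≠ t x ∨ ∃ n ∈ S.W (-m) m, ψ (inn S n) x ≠ α n x)) ≤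
              ε * Fintype.card X

/-- CLM: modules. A finite elementary abelian `2`-group acts on an elementary abelian `p`-group, `p`
odd, and each of its elements moves little. -/
def S_CLM : Prop :=
  ∀ (p : ℕ) [Fact p.Prime], p ≠ 2 → ∀ (M : Type) [AddCommGroup M] [Module (ZMod p) M]
    (D : Type) [CommGroup D] [Finite D] (β : D →* (M →ₗ[ZMod p] M)), (∀ u : D, u ^ 2 = 1) →
    ∀ c : ℕ, (∀ u, Module.Finite (ZMod p) (LinearMap.range (β u - 1)) ∧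
      Module.finrank (ZMod p) (LinearMap.range (β u - 1)) ≤ c) →
    Module.Finite (ZMod p) (⨆ u, LinearMap.range (β u - 1) : Submodule (ZMod p) M) ∧
      Module.finrank (ZMod p) (⨆ u, LinearMap.range (β u - 1) : Submodule (ZMod p) M) ≤ 2 * c

/-- CLALG: subgroups which contain an element outside `N` commuting with many elements modulo the
subgroup. -/
def S_CLALG : Prop :=
  ∀ (p : ℕ) [Fact p.Prime], p ≠ 2 → ∀ (j m : ℕ), 0 < j → ∃ q : ℕ, 0 < q ∧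
    ∀ (L : Subgroup (GG (SS p))) (g : GG (SS p)) (n : NN p),
      g = (inn (SS p) n)⁻¹ * tt (SS p) ^ j → g ∈ L →
      (∀ s : Fin (m + 1) → NN p, (∀ k, s k ∈ SA p) → ∃ k k', k ≠ k' ∧
        g * inn (SS p) (s k * (s k')⁻¹) * g⁻¹ * (inn (SS p) (s k * (s k')⁻¹))⁻¹ ∈ L) →
      (∀ s : Fin (m + 1) → NN p, (∀ k, s k ∈ SL p) → ∃ k k', k ≠ k' ∧ ∃ a ∈ SA p,
        inn (SS p) a *
          (g * inn (SS p) (s k * (s k')⁻¹) * g⁻¹ * (inn (SS p) (s k * (s k')⁻¹))⁻¹) ∈ L) →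
      ∀ n' : NN p, fN p q n' = 1 → inn (SS p) n' ∈ L

/-- the commutator `g d g⁻¹ d⁻¹` for `g = n⁻¹ t^j` -/
def cmt (p : ℕ) (n : NN p) (j : ℕ) (d : NN p) : NN p := n⁻¹ * ((shN p) ^ j) d * n * d⁻¹

/-- the first condition for a point `x` fixed by `n⁻¹ t^j` -/
def CA (p m R : ℕ) {X : Type} (α : NN p → Equiv.Perm X) (x : X) (n : NN p) (j : ℕ) : Prop :=
  ∀ s : Fin (m + 1) → NN p, (∀ k, s k ∈ SA p ∧ s k ∈ WN p (-R) R) → ∃ k k', k ≠ k' ∧
    α (cmt p n j (s k * (s k')⁻¹)) x = x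

/-- the second condition for a point `x` fixed by `n⁻¹ t^j`, on all scales `r ≤ R` -/
def CL (p m R K : ℕ) {X : Type} (α : NN p → Equiv.Perm X) (x : X) (n : NN p) (j : ℕ) : Prop :=
  ∀ r : ℕ, r ≤ R → ∀ s : Fin (m + 1) → NN p, (∀ k, s k ∈ SL p ∧ s k ∈ WN p (-r) r) →
    ∃ k k', k ≠ k' ∧ ∃ a ∈ SA p, a ∈ WN p (-(r + 2 * K : ℕ)) (r + 2 * K : ℕ) ∧
      α (a * cmt p n j (s k * (s k')⁻¹)) x = x

/-- DENS: points fixed by `n⁻¹ t^j` satisfy both conditions with few exceptions. -/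
def S_DENS : Prop :=
  ∀ (p : ℕ) [Fact p.Prime] (K m R : ℕ), ∀ (X : Type) [Fintype X]
    (α : NN p → Equiv.Perm X) (t : Equiv.Perm X), Act (SS p) (R + 2 * K) α t →
    ∀ (j : ℕ) (n : NN p), 0 < j → j ≤ K → n ∈ WN p (-K) K →
      ct (fun x => (t ^ j) x = α n x ∧ ¬ (CA p m R α x n j ∧ CL p m R K α x n j)) ≤
        2 / (m + 1 : ℝ) * Fintype.card X

/-- CLPT: compactness. -/
def S_CLPT : Prop :=
  ∀ (p : ℕ) [Fact p.Prime], p ≠ 2 → ∀ (K m : ℕ), ∃ q : ℕ, 0 < q ∧ ∀ w : ℕ, ∃ R0 : ℕ, ∀ R ≥ R0,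
    ∀ (X : Type) (α : NN p → Equiv.Perm X) (t : Equiv.Perm X), Act (SS p) (R + 2 * K) α t →
    ∀ (x : X) (j : ℕ) (n : NN p), 0 < j → j ≤ K → n ∈ WN p (-K) K → (t ^ j) x = α n x →
      CA p m R α x n j → CL p m R K α x n j →
      ∀ n' ∈ WN p (-w) w, fN p q n' = 1 → α n' x = x

/-- CLP: the periodic part is fixed by the kernel of a folding map. -/
def S_CLP : Prop :=
  ∀ (p : ℕ) [Fact p.Prime], p ≠ 2 → ∀ (K : ℕ) (ε : ℝ), 0 < ε → ∃ q : ℕ, 0 < q ∧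
    ∀ w : ℕ, ∃ R0 : ℕ, ∀ R ≥ R0, ∀ (X : Type) [Fintype X] (α : NN p → Equiv.Perm X)
      (t : Equiv.Perm X), Act (SS p) R α t →
      ct (fun x => (∃ (j : ℕ) (n : NN p), 0 < j ∧ j ≤ K ∧ n ∈ WN p (-K) K ∧ (t ^ j) x = α n x) ∧
        ∃ n' ∈ WN p (-w) w, fN p q n' = 1 ∧ α n' x ≠ x) ≤ ε * Fintype.card X

/-- PST: permutation stability. -/
def S_PST : Prop := ∀ (p : ℕ) [Fact p.Prime], p ≠ 2 → PermutationStable (GG (SS p))

/-! ### unitary matrices -/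

/-- SKYH: skyscrapers over a projection. -/
def S_SKYH : Prop :=
  ∀ (N : Type) [Group N] (S : WD N), S.Ok → ∀ (m K R : ℕ), 2 * K < R →
    ∀ (d : ℕ) (α : N → UU d) (t : UU d), Act S R α t → ∀ e q : Mt d, Mk S (2 * K) α t e q →
      ∃ ψ : GG S →* UU d, (∀ g, (ψ g).1 * (1 - q) = 1 - q) ∧
        fro (((ψ (tt S)).1 - t.1) * q) ≤
          4 * ((2 * m + 3) * rtr e + rtr (q * uB t e K) + rtr (q * uF t e K) + exq t q K) ∧
        ∀ n ∈ S.W (-m) m, fro (((ψ (inn S n)).1 - (α n).1) * q) ≤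
          4 * ((2 * m + 3) * rtr e + rtr (q * uB t e K) + rtr (q * uF t e K) + exq t q K)

/-- FINH: the part where the kernel of the folding map acts trivially. -/
def S_FINH : Prop :=
  ∀ (N : Type) [Group N] (S : WD N), S.Ok → ∀ (q m : ℕ) (ε : ℝ), 0 < q → 0 < ε →
    ∃ (w0 : ℕ) (η : ℝ), 0 < η ∧ ∀ w ≥ w0, ∀ R ≥ w,
      ∀ (d : ℕ) (α : N → UU d) (t : UU d), Act S R α t → ∀ y : Mt d, IsP y →
        (∀ n ∈ S.W (-w) w, Commute (α n).1 y) →
        (∀ n ∈ S.W (-w) w, S.f q n = 1 → (α n).1 * y = y) →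
        rtr (y * (1 - cj t 1 y)) ≤ η * d →
        ∃ ψ : GG S →* UU d, (∀ g, (ψ g).1 * (1 - y) = 1 - y) ∧
          fro (((ψ (tt S)).1 - t.1) * y) ≤ ε * d ∧
          ∀ n ∈ S.W (-m) m, fro (((ψ (inn S n)).1 - (α n).1) * y) ≤ ε * d

/-- average over a finite set -/
def avS {N : Type} {d : ℕ} (α : N → UU d) (T : Set N) : Mt d :=
  ((Nat.card T : ℂ)⁻¹) • ∑ᶠ n ∈ T, (α n).1

/-- projection onto the vectors fixed by the kernel of the folding map in `SA`, window `w` -/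
def pA (p q w : ℕ) {d : ℕ} (α : NN p → UU d) : Mt d :=
  avS α {n | n ∈ SA p ∧ fN p q n = 1 ∧ n ∈ WN p (-w) w}

/-- projection onto the vectors fixed by the kernel of the folding map in `SL`, window `w` -/
def pL (p q w : ℕ) {d : ℕ} (α : NN p → UU d) : Mt d :=
  avS α {n | n ∈ SL p ∧ fN p q n = 1 ∧ n ∈ WN p (-w) w}

/-- pairing of `SA` with functions -/
def pr (p : ℕ) (x : NN p) (ω : Lam → ZMod p) : ZMod p := x.a.sum fun y c => c * ω y

/-- spectral projection of the functions in the window `[a, b)` for the character `ω` -/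
def EE (p : ℕ) [NeZero p] {d : ℕ} (α : NN p → UU d) (a b : ℤ) (ω : Lam → ZMod p) : Mt d :=
  ((Nat.card {x : NN p | x ∈ SA p ∧ x ∈ WN p a b} : ℂ)⁻¹) •
    ∑ᶠ x ∈ {x : NN p | x ∈ SA p ∧ x ∈ WN p a b}, (ZMod.stdAddChar (-(pr p x ω)) : ℂ) • (α x).1

/-- extension by zero of a function on the window -/
def exo (p : ℕ) (a b : ℤ) (ω : {y : Lam // InL a b y} → ZMod p) : Lam → ZMod p :=
  open Classical in fun y => if h : InL a b y then ω ⟨y, h⟩ else 0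

/-- SPA: spectral projections. -/
def S_SPA : Prop :=
  ∀ (p : ℕ) [Fact p.Prime] (R d : ℕ) (α : NN p → UU d) (t : UU d), Act (SS p) R α t →
    ∀ a b : ℤ, -R ≤ a → b ≤ R →
    (∀ ω, IsP (EE p α a b ω)) ∧
    (∀ ω ω', (∀ y, InL a b y → ω y = ω' y) → EE p α a b ω = EE p α a b ω') ∧
    (∀ ω ω', (∃ y, InL a b y ∧ ω y ≠ ω' y) → EE p α a b ω * EE p α a b ω' = 0) ∧
    (∀ ω, ∀ x ∈ SA p, x ∈ WN p a b → (α x).1 * EE p α a b ω =
      (ZMod.stdAddChar (pr p x ω) : ℂ) • EE p α a b ω) ∧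
    (∀ ω, ∀ x ∈ SA p, x ∈ WN p (-R) R → Commute (α x).1 (EE p α a b ω)) ∧
    (∀ ω, ∀ x ∈ SL p, x ∈ WN p a b → (α x).1 * EE p α a b ω =
      EE p α a b (fun y => ω (-x.l + y)) * (α x).1) ∧
    (∀ ω, b < R → t.1 * EE p α a b ω =
      EE p α (a + 1) (b + 1) (fun y => ω (shL.symm y)) * t.1) ∧
    ∀ _ : Fintype {y : Lam // InL a b y},
      (open Classical in ∑ ω : {y : Lam // InL a b y} → ZMod p, EE p α a b (exo p a b ω)) = 1 ∧
      ∀ (a' b' : ℤ) (ω' : Lam → ZMod p), a ≤ a' → b' ≤ b → EE p α a' b' ω' =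
        (open Classical in ∑ ω : {y : Lam // InL a b y} → ZMod p,
          if ∀ y, InL a' b' y → exo p a b ω y = ω' y then EE p α a b (exo p a b ω) else 0)

/-- CLH: the spectral projections of periodic characters are mostly fixed by the kernel of a folding
map. -/
def S_CLH : Prop :=
  ∀ (p : ℕ) [Fact p.Prime] (K m : ℕ), 0 < m → ∃ q : ℕ, 0 < q ∧ ∀ w : ℕ, ∃ r0 : ℕ, ∀ r ≥ r0,
    ∀ (R d : ℕ) (α : NN p → UU d) (t : UU d), r + K ≤ R → Act (SS p) R α t →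
    ∀ (j : ℕ) (l : Lam), 0 < j → j ≤ K → InL (-K) K l →
    ∀ _ : Fintype {y : Lam // InL (-(r + K : ℕ)) (r + K : ℕ) y},
      rtr ((open Classical in
        ∑ ω : {y : Lam // InL (-(r + K : ℕ)) (r + K : ℕ) y} → ZMod p,
          if ∀ y, InL (-r) r y → exo p (-(r + K : ℕ)) (r + K : ℕ) ω (shL.symm^[j] y)
              = exo p (-(r + K : ℕ)) (r + K : ℕ) ω (-l + y)
          then EE p α (-(r + K : ℕ)) (r + K : ℕ) (exo p (-(r + K : ℕ)) (r + K : ℕ) ω) else 0) *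
        (1 - pA p q w α)) ≤ 1 / (m : ℝ) * d

/-- STEPA: marks in the algebra of `SA`. -/
def S_STEPA : Prop :=
  ∀ (p : ℕ) [Fact p.Prime] (l K : ℕ) (ε : ℝ), 0 < l → 0 < ε → ∃ q : ℕ, 0 < q ∧
    ∀ w : ℕ, 2 * K ≤ w → ∃ R0 : ℕ, ∀ R ≥ R0, ∀ (d : ℕ) (α : NN p → UU d) (t : UU d),
      Act (SS p) R α t → ∃ e : Mt d, Mk (SS p) (2 * K) α t e (1 - pA p q w α) ∧
        rtr e ≤ 2 / l * d ∧
        rtr ((1 - pA p q w α) * uB t e K) ≤ (4 * (1 - 1 / (l : ℝ)) ^ K + ε) * d ∧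
        rtr ((1 - pA p q w α) * uF t e K) ≤ (4 * (1 - 1 / (l : ℝ)) ^ K + ε) * d

/-- STEPB: marks in the algebra of `SL`. -/
def S_STEPB : Prop :=
  ∀ (p : ℕ) [Fact p.Prime] (l K q : ℕ), 0 < l → 0 < q → ∃ q' : ℕ, 0 < q' ∧ q ∣ q' ∧ ∃ c : ℕ,
    ∀ v w R : ℕ, v + c ≤ w → w + c ≤ R → ∀ (d : ℕ) (α : NN p → UU d) (t : UU d),
      Act (SS p) R α t → ∃ e : Mt d,
        Mk (SS p) (2 * K) α t e (pA p q w α - pA p q w α * pL p q' v α) ∧
        rtr e ≤ 2 / l * d ∧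
        rtr ((pA p q w α - pA p q w α * pL p q' v α) * uB t e K) ≤
          4 * (1 - 1 / (l : ℝ)) ^ K * d +
            exq t (pA p q w α - pA p q w α * pL p q' v α) K ∧
        rtr ((pA p q w α - pA p q w α * pL p q' v α) * uF t e K) ≤
          4 * (1 - 1 / (l : ℝ)) ^ K * d +
            exq t (pA p q w α - pA p q w α * pL p q' v α) K

/-- PROJ: facts about the projections `pA` and `pL`. -/
def S_PROJ : Prop :=
  ∀ (p : ℕ) [Fact p.Prime] (q q' v w R : ℕ), 0 < q → 0 < q' → q ∣ q' → v ≤ w → w + 1 ≤ R →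
    ∀ (d : ℕ) (α : NN p → UU d) (t : UU d), Act (SS p) R α t →
      IsP (pA p q w α) ∧ IsP (pA p q w α * pL p q' v α) ∧
      (∀ n ∈ WN p (-w) w, Commute (α n).1 (pA p q w α)) ∧
      (∀ n ∈ WN p (-v) v, Commute (α n).1 (pA p q w α * pL p q' v α)) ∧
      (∀ n ∈ WN p (-v) v, fN p q' n = 1 →
        (α n).1 * (pA p q w α * pL p q' v α) = pA p q w α * pL p q' v α) ∧
      pA p q w α * (pA p q w α * pL p q' v α) = pA p q w α * pL p q' v α ∧
      (w + 2 ≤ R → rtr (pA p q w α * (1 - cj t 1 (pA p q w α))) ≤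
        rtr (pA p q w α) - rtr (pA p q (w + 1) α)) ∧
      (w + 2 ≤ R → rtr (pA p q w α * pL p q' v α * (1 - cj t 1 (pA p q w α * pL p q' v α))) ≤
        rtr (pA p q w α * pL p q' v α) - rtr (pA p q (w + 1) α * pL p q' (v + 1) α))

/-- HST: Hilbert-Schmidt stability. -/
def S_HST : Prop := ∀ (p : ℕ) [Fact p.Prime], p ≠ 2 → HilbertSchmidtStable (GG (SS p))

/-! ### the counterexample -/

/-- FG: finite generation. -/
def S_FG : Prop := ∀ (p : ℕ) [Fact p.Prime], Group.FG (GG (SS p))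

/-- EMB: the cyclic subgroup. -/
def S_EMB : Prop := ∀ (p : ℕ) [Fact p.Prime], ∃ i : Multiplicative (ZMod p) →* GG (SS p),
  Function.Injective i ∧ i (Multiplicative.ofAdd 1) = inn (SS p) (hh p)

/-- RF: `uu` is killed in the finite quotients in which `hh` is killed. -/
def S_RF : Prop := ∀ (p : ℕ) [Fact p.Prime], p ≠ 2 → ∀ (Q : Type) [Group Q] [Finite Q]
  (ρ : GG (SS p) →* Q), ρ (inn (SS p) (hh p)) = 1 → ρ (inn (SS p) (uu p)) = 1

/-- EX: finite sets on which `hh` is close to the identity and `uu` has few fixed points. -/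
def S_EX : Prop := ∀ (p : ℕ) [Fact p.Prime], p ≠ 2 → ∀ L : ℕ, 2 ≤ L →
  ∃ (X : Type) (_ : Fintype X) (_ : Nonempty X) (ψ : GG (SS p) →* Equiv.Perm X),
    L * ct (fun x => ψ (inn (SS p) (hh p)) x ≠ x) ≤ Fintype.card X ∧
    L * ct (fun x => ψ (inn (SS p) (uu p)) x = x) ≤ Fintype.card X

/-- G1: a group with only trivial asymptotic homomorphisms. -/
def S_G1 : Prop := ∃ (G : Type) (_ : Group G), Group.FG G ∧
  (∃ i : Multiplicative (ZMod 257) →* G, Function.Injective i) ∧ PermutationStable G ∧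
  HilbertSchmidtStable G ∧ ∀ (Q : Type) [Group Q] [Finite Q] (ρ : G →* Q) (g : G), ρ g = 1

/-- NOT: the amalgam is not stable. -/
def S_NOT : Prop :=
  ∀ (G₁ G₂ H : Type) [Group G₁] [Group G₂] [Group H] [Finite H] (f₁ : H →* G₁) (f₂ : H →* G₂)
    (h0 : H) (u : G₂), Group.FG G₁ → Group.FG G₂ → (∀ x : H, x ∈ Subgroup.zpowers h0) →
    (∀ (Q : Type) [Group Q] [Finite Q] (ρ : G₁ →* Q) (g : G₁), ρ g = 1) →
    (∀ (Q : Type) [Group Q] [Finite Q] (ρ : G₂ →* Q), ρ (f₂ h0) = 1 → ρ u = 1) →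
    (∀ L : ℕ, 2 ≤ L → ∃ (X : Type) (_ : Fintype X) (_ : Nonempty X) (ψ : G₂ →* Equiv.Perm X),
      L * ct (fun x => ψ (f₂ h0) x ≠ x) ≤ Fintype.card X ∧
      L * ct (fun x => ψ u x = x) ≤ Fintype.card X) →
    ¬ PermutationStable (AmalgProd f₁ f₂) ∧ ¬ HilbertSchmidtStable (AmalgProd f₁ f₂) ∧
      ∀ (r : ℕ) (s : Fin r → AmalgProd f₁ f₂), Subgroup.closure (Set.range s) = ⊤ →
        ¬ FlexPermWrt s ∧ ¬ FlexHSWrt s

end

end Pool.Agent.N139.AS
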