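import Pool.Agent.N139.AS.Stm
import Pool.Agent.N44.NS.Defs

/-!
# Project AS: further statements
-/

set_option autoImplicit false

namespace Pool.Agent.N139.AS

open Finset Matrix Filter Topology
open Pool.Agent.H698R3.Amalg (PermutationStable HilbertSchmidtStable AmalgProd fro hsDist)
open Pool.Agent.H698R4 (FlexPermWrt FlexHSWrt)
open Pool.Agent.N44.NS (E3 Leav)

noncomputable section

/-- CLIDX: such subgroups have bounded index. -/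
def S_CLIDX : Prop :=
  ∀ (p : ℕ) [Fact p.Prime], p ≠ 2 → ∀ (j m : ℕ), 0 < j → ∃ B : ℕ,
    ∀ (L : Subgroup (GG (SS p))) (g : GG (SS p)) (n : NN p),
      g = (inn (SS p) n)⁻¹ * tt (SS p) ^ j → g ∈ L →
      (∀ s : Fin (m + 1) → NN p, (∀ k, s k ∈ SA p) → ∃ k k', k ≠ k' ∧
        g * inn (SS p) (s k * (s k')⁻¹) * g⁻¹ * (inn (SS p) (s k * (s k')⁻¹))⁻¹ ∈ L) →
      (∀ s : Fin (m + 1) → NN p, (∀ k, s k ∈ SL p) → ∃ k k', k ≠ k' ∧ ∃ a ∈ SA p,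
        inn (SS p) a *
          (g * inn (SS p) (s k * (s k')⁻¹) * g⁻¹ * (inn (SS p) (s k * (s k')⁻¹))⁻¹) ∈ L) →
      L.index ≠ 0 ∧ L.index ≤ B

/-- CLKER: a subgroup of bounded index contains the kernel of a folding map. -/
def S_CLKER : Prop :=
  ∀ (p : ℕ) [Fact p.Prime] (B : ℕ) (L : Subgroup (GG (SS p))), L.index ≠ 0 → L.index ≤ B →
    ∀ n : NN p, fN p (B.factorial) n = 1 → inn (SS p) n ∈ L

theorem clalg_of (h1 : S_CLIDX) (h2 : S_CLKER) : S_CLALG := by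
  intro p _ hp j m hj
  obtain ⟨B, hB⟩ := h1 p hp j m hj
  refine ⟨B.factorial, Nat.factorial_pos B, fun L g n hg hgL hA hL n' hn' => ?_⟩
  obtain ⟨h3, h4⟩ := hB L g n hg hgL hA hL
  exact h2 p B L h3 h4 n' hn'

/-- TRV: asymptotic homomorphisms of the elementary group of the Leavitt algebra are trivial. -/
def S_TRV : Prop :=
  ∀ (K : Type) [Field K] [Fintype K] (A : Type) [Ring A] [Algebra K A] [Nontrivial A]
    (x1 x2 y1 y2 : A), 256 ≤ Fintype.card K → Leav x1 x2 y1 y2 →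
    Algebra.adjoin K (Set.range ![x1, x2, y1, y2]) = ⊤ →
    ∀ (k : ℕ → ℕ) (φ : ∀ n, E3 A → UU (k n)),
      (∀ a b : E3 A, Tendsto (fun n => hsDist (φ n a * φ n b).1 (φ n (a * b)).1) atTop (𝓝 0)) →
      ∀ a : E3 A, Tendsto (fun n => hsDist (φ n a).1 1) atTop (𝓝 0)

/-- NOTP: the amalgam is not stable, permutations. -/
def S_NOTP : Prop :=
  ∀ (G₁ G₂ H : Type) [Group G₁] [Group G₂] [Group H] [Finite H] (f₁ : H →* G₁) (f₂ : H →* G₂)
    (h0 : H) (u : G₂), Group.FG G₁ → Group.FG G₂ → (∀ x : H, x ∈ Subgroup.zpowers h0) →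
    (∀ (Q : Type) [Group Q] [Finite Q] (ρ : G₁ →* Q) (g : G₁), ρ g = 1) →
    (∀ (Q : Type) [Group Q] [Finite Q] (ρ : G₂ →* Q), ρ (f₂ h0) = 1 → ρ u = 1) →
    (∀ L : ℕ, 2 ≤ L → ∃ (X : Type) (_ : Fintype X) (_ : Nonempty X) (ψ : G₂ →* Equiv.Perm X),
      L * ct (fun x => ψ (f₂ h0) x ≠ x) ≤ Fintype.card X ∧
      L * ct (fun x => ψ u x = x) ≤ Fintype.card X) →
    ¬ PermutationStable (AmalgProd f₁ f₂) ∧
      ∀ (r : ℕ) (s : Fin r → AmalgProd f₁ f₂), Subgroup.closure (Set.range s) = ⊤ →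
        ¬ FlexPermWrt s

/-- NOTH: the amalgam is not stable, unitary matrices. -/
def S_NOTH : Prop :=
  ∀ (G₁ G₂ H : Type) [Group G₁] [Group G₂] [Group H] [Finite H] (f₁ : H →* G₁) (f₂ : H →* G₂)
    (h0 : H) (u : G₂), Group.FG G₁ → Group.FG G₂ → (∀ x : H, x ∈ Subgroup.zpowers h0) →
    (∀ (Q : Type) [Group Q] [Finite Q] (ρ : G₁ →* Q) (g : G₁), ρ g = 1) →
    (∀ (Q : Type) [Group Q] [Finite Q] (ρ : G₂ →* Q), ρ (f₂ h0) = 1 → ρ u = 1) →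
    (∀ L : ℕ, 2 ≤ L → ∃ (X : Type) (_ : Fintype X) (_ : Nonempty X) (ψ : G₂ →* Equiv.Perm X),
      L * ct (fun x => ψ (f₂ h0) x ≠ x) ≤ Fintype.card X ∧
      L * ct (fun x => ψ u x = x) ≤ Fintype.card X) →
    ¬ HilbertSchmidtStable (AmalgProd f₁ f₂) ∧
      ∀ (r : ℕ) (s : Fin r → AmalgProd f₁ f₂), Subgroup.closure (Set.range s) = ⊤ →
        ¬ FlexHSWrt s

end

end Pool.Agent.N139.AS
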