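import Pool.Agent.N139.AS.Asm
import Pool.Agent.N547.AS.Ok
import Pool.Agent.N225.AS.FIN
import Pool.Agent.N547.AS.REDP
import Pool.Agent.N413.AS.REDH
import Pool.Agent.N523.AS.MARK
import Pool.Agent.N377.AS.SKYP
import Pool.Agent.N346.AS.FINP
import Pool.Agent.N897.AS.CLM
import Pool.Agent.N768.AS.CLIDX
import Pool.Agent.N933.AS.CLKER
import Pool.Agent.N196.AS.SKYH
import Pool.Agent.N395.AS.FINH
import Pool.Agent.N543.AS.DENS
import Pool.Agent.N591.AS.CLPT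
import Pool.Agent.N724.AS.CLP
import Pool.Agent.N519.AS.PST
import Pool.Agent.N314.AS.PROJ
import Pool.Agent.N2.AS.SPA
import Pool.Agent.N139.AS.CLH
import Pool.Agent.N286.AS.SPL
import Pool.Agent.N277.AS.HST
import Pool.Agent.N596.AS.STEPA
import Pool.Agent.N704.AS.STEPB
import Pool.Agent.N547.AS.FgEmbRf
import Pool.Agent.N935.AS.EX
import Pool.Agent.N692.AS.TRV
import Pool.Agent.N78.AS.G1
import Pool.Agent.N547.AS.NOTP
import Pool.Agent.N664.AS.NOTH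

/-!
# Project AS: all steps together
-/

set_option autoImplicit false

namespace Pool.Agent.N139.AS

theorem t_CLALG : S_CLALG :=
  clalg_of (Pool.Agent.N768.AS.t_CLIDX Pool.Agent.N897.AS.t_CLM) Pool.Agent.N933.AS.t_CLKER

/-- permutation stability of the groups `GG (SS p)`, `p` an odd prime -/
theorem t_PST : S_PST :=
  Pool.Agent.N519.AS.t_PST Pool.Agent.N547.AS.t_OK
    (Pool.Agent.N547.AS.t_REDP Pool.Agent.N225.AS.t_FIN) Pool.Agent.N377.AS.t_SKYP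
    (Pool.Agent.N346.AS.t_FINP Pool.Agent.N225.AS.t_FIN) Pool.Agent.N523.AS.t_MARK
    (Pool.Agent.N724.AS.t_CLP
      (Pool.Agent.N591.AS.t_CLPT t_CLALG Pool.Agent.N547.AS.t_OK)
      Pool.Agent.N543.AS.t_DENS Pool.Agent.N547.AS.t_OK)

theorem t_STEPA : S_STEPA :=
  Pool.Agent.N596.AS.t_STEPA Pool.Agent.N547.AS.t_OK Pool.Agent.N523.AS.t_MARK
    (Pool.Agent.N2.AS.t_SPA Pool.Agent.N547.AS.t_OK)
    (Pool.Agent.N139.AS.Clh.t_CLH (Pool.Agent.N2.AS.t_SPA Pool.Agent.N547.AS.t_OK)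
      Pool.Agent.N547.AS.t_OK)
    (Pool.Agent.N314.AS.t_PROJ Pool.Agent.N547.AS.t_OK)

theorem t_STEPB : S_STEPB :=
  Pool.Agent.N704.AS.t_STEPB Pool.Agent.N547.AS.t_OK Pool.Agent.N523.AS.t_MARK
    (Pool.Agent.N286.AS.t_SPL Pool.Agent.N547.AS.t_OK)
    (Pool.Agent.N314.AS.t_PROJ Pool.Agent.N547.AS.t_OK)

/-- Hilbert-Schmidt stability of the groups `GG (SS p)`, `p` an odd prime -/
theorem t_HST : S_HST :=
  Pool.Agent.N277.AS.t_HST Pool.Agent.N547.AS.t_OK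
    (Pool.Agent.N413.AS.t_REDH Pool.Agent.N225.AS.t_FIN) Pool.Agent.N196.AS.t_SKYH
    (Pool.Agent.N395.AS.t_FINH Pool.Agent.N225.AS.t_FIN) t_STEPA t_STEPB
    (Pool.Agent.N314.AS.t_PROJ Pool.Agent.N547.AS.t_OK)

/-- the counterexample -/
theorem final : S_FINAL :=
  final_of (Pool.Agent.N78.AS.t_G1 Pool.Agent.N692.AS.t_TRV) t_PST t_HST
    Pool.Agent.N547.AS.t_FG Pool.Agent.N547.AS.t_EMB Pool.Agent.N547.AS.t_RF
    Pool.Agent.N935.AS.t_EX Pool.Agent.N547.AS.t_NOTP Pool.Agent.N664.AS.t_NOTH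

end Pool.Agent.N139.AS
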