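import Pool.Agent.N139.AS.Stm
import Pool.Agent.H828.GoG.Main

/-!
# Project AS: HNN extensions of finite groups are stable
-/

set_option autoImplicit false

namespace Pool.Agent.N139.AS

open Pool.Agent.H698R3.Amalg Pool.Agent.H828.GoG

theorem almostNormal_of_finite {G : Type} [Group G] [Finite G] (K : Subgroup G) :
    AlmostNormal K := by
  unfold AlmostNormal
  exact Set.toFinite _

/-- HNN extensions of finite groups are stable for both classes. -/
theorem hnn_fin (hF : S_FIN) (F : Type) [Group F] [Finite F] (A B : Subgroup F) (φ : A ≃* B) :
    PermutationStable (HNNExtension F A B φ) ∧ HilbertSchmidtStable (HNNExtension F A B φ) := by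
  have hA := almostNormal_of_finite A
  have hB := almostNormal_of_finite B
  obtain ⟨i, r, hri⟩ := hnn_retract φ
  exact ⟨perm_retract i r hri
    (perm_UGroup (hnnGraph φ) (hnn_good φ hA hB) (fun _ => (inferInstance : Countable F))
      (fun _ => (hF F).1)),
    hs_retract i r hri
    (hs_UGroup (hnnGraph φ) (hnn_good φ hA hB) (fun _ => (inferInstance : Countable F))
      (fun _ => (hF F).2))⟩

end Pool.Agent.N139.AS
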